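import Pool.Agent.H78.SS.Final

/-!
MP_591ade_co, p = 7.  The incircle packing of the regular tiling {7,3} of the hyperbolic plane is strongly solid:
delete any one disk and move finitely many of the remaining disks so that again a packing results; then the new
packing is congruent to the packing before the moves.

The statement is the second conjunct of the frozen statement S08893, word for word (k and rho generate the rotation
group of the triangle tiling {3,7}; the orbit S of the point I is the set of the centres; the disks have radius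
arsinh sqrt (D^2 - 1), D = 1/(2 sin(pi/7)), half the distance of neighbouring centres).
-/

set_option autoImplicit false
open Real

namespace Pool.Agent.Results.MP_591ade_co.HeptagonalStronglySolid

theorem result :
  ∀ k ρ : Matrix.SpecialLinearGroup (Fin 2) ℝ, ∀ E D : ℝ,
    D = 1 / (2 * Real.sin (π / 7)) →
    E = Real.cos (π / 7) / (Real.sqrt 3 * Real.sin (π / 7)) +
        Real.sqrt ((Real.cos (π / 7) / (Real.sqrt 3 * Real.sin (π / 7))) ^ 2 - 1) →
    (k : Matrix (Fin 2) (Fin 2) ℝ) = !![Real.cos (π / 7), -Real.sin (π / 7); Real.sin (π / 7), Real.cos (π / 7)] →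
    (ρ : Matrix (Fin 2) (Fin 2) ℝ) = !![1 / 2, -(Real.sqrt 3 / 2) * E; (Real.sqrt 3 / 2) / E, 1 / 2] →
    ∀ S : Set UpperHalfPlane,
      S = {z : UpperHalfPlane | ∃ γ ∈ Subgroup.closure ({k, ρ} : Set (Matrix.SpecialLinearGroup (Fin 2) ℝ)),
            z = γ • UpperHalfPlane.I} →
    ∀ s ∈ S, ∀ g : UpperHalfPlane → UpperHalfPlane, ((S \ {s}) ∩ {c | g c ≠ c}).Finite →
      (∀ c ∈ S \ {s}, ∀ d ∈ S \ {s}, c ≠ d → 2 * Real.arsinh (Real.sqrt (D ^ 2 - 1)) ≤ dist (g c) (g d)) →
      ∃ φ : UpperHalfPlane ≃ᵢ UpperHalfPlane, φ '' (S \ {s}) = g '' (S \ {s}) :=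
  Pool.Agent.H78.SS.heptagonal

end Pool.Agent.Results.MP_591ade_co.HeptagonalStronglySolid
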